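import Pool.Agent.H50.OI.Stm

/-! # Project OI: a small function orthogonal to the polynomials of low degree -/

set_option autoImplicit false

namespace Pool.Agent.H58.OI

open Finset MeasureTheory Filter Topology Q198.CI Pool.Agent.H50.OI

lemma entropy_pos {q : ℝ} (hq : 0 < q) (hq1 : q < 1) : 0 < 1 - q + q * Real.log q := by
  have h1 : Real.log (1 / q) < 1 / q - 1 := by
    apply Real.log_lt_sub_one_of_pos (by positivity)
    intro h
    rw [div_eq_one_iff_eq hq.ne'] at h
    linarith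
  rw [one_div, Real.log_inv] at h1
  have h2 : q * (-Real.log q) < q * (q⁻¹ - 1) := mul_lt_mul_of_pos_left h1 hq
  have h3 : q * (q⁻¹ - 1) = 1 - q := by
    field_simp
  rw [h3] at h2
  linarith

lemma B0_bound {a b q L : ℝ} (hb : 0 < b) (hq : 0 < q) (hq1 : q < 1)
    (haq : a = 2 * b * q) (hL2 : 2 ≤ L) (hLq : 2 / (L - 1) ≤ 1 - q) (hLa : a ≤ b * L)
    {ℓ m : ℕ} (hm : (m : ℝ) ≤ a * L) (hℓ : b * L ^ 2 ≤ ℓ) :
    B0 ℓ m (1 / L) q ≤ Real.exp (-(b * L * (1 - q + q * Real.log q)) + (4 * b + a)) /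
      (1 - Real.sqrt q) := by
  have hL1 : 0 < L - 1 := by linarith
  have hu : (1 / L) / (1 - 1 / L) = 1 / (L - 1) := by
    have : L ≠ 0 := by linarith
    field_simp
  have hsq : Real.sqrt q < 1 := by
    rw [Real.sqrt_lt' one_pos]
    simpa using hq1
  have hs0 : 0 < Real.sqrt q := Real.sqrt_pos.2 hq
  unfold B0
  rw [hu]
  apply div_le_div_of_nonneg_right _ (by linarith)
  set u : ℝ := 1 / (L - 1) with hu'
  set X : ℝ := (ℓ : ℝ) - m with hX
  have hu0 : 0 < u := by positivity
  have h2u : 2 * u ≤ 1 - q := by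
    rw [hu', mul_one_div]
    exact hLq
  have huL : u * (L - 1) = 1 := by
    rw [hu']
    field_simp
  have hX1 : L * (b * L - a) ≤ X := by
    rw [hX]
    nlinarith
  have hbL : 0 ≤ b * L - a := by linarith
  have hXu : b * L - a ≤ X * u := by
    have h1 : (L - 1) * (b * L - a) ≤ X := by nlinarith
    have h2 : (L - 1) * (b * L - a) * u ≤ X * u := mul_le_mul_of_nonneg_right h1 hu0.le
    have h3 : (L - 1) * (b * L - a) * u = (u * (L - 1)) * (b * L - a) := by ring
    rw [h3, huL, one_mul] at h2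
    exact h2
  -- the power of `1 / √q`
  have hlog : Real.log (1 / Real.sqrt q) = -(Real.log q / 2) := by
    rw [one_div, Real.log_inv, Real.log_sqrt hq.le]
  have hlogq : Real.log q < 0 := Real.log_neg hq hq1
  have hpow : (1 / Real.sqrt q) ^ m ≤ Real.exp (-(b * L * (q * Real.log q))) := by
    have h1 : (1 / Real.sqrt q) ^ m = Real.exp (m * Real.log (1 / Real.sqrt q)) := by
      rw [Real.exp_nat_mul, Real.exp_log (by positivity)]
    rw [h1, Real.exp_le_exp, hlog]
    have h2 : (m : ℝ) * -(Real.log q / 2) ≤ a * L * -(Real.log q / 2) :=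
      mul_le_mul_of_nonneg_right hm (by linarith)
    refine h2.trans (le_of_eq ?_)
    rw [haq]
    ring
  have hexp : Real.exp (-(X * u * (1 - q)) + 2 * X * u ^ 2) ≤
      Real.exp (-(b * L * (1 - q)) + (4 * b + a)) := by
    rw [Real.exp_le_exp]
    have h1 : -(X * u * (1 - q)) + 2 * X * u ^ 2 = -(X * u * (1 - q - 2 * u)) := by ring
    have h2 : (b * L - a) * (1 - q - 2 * u) ≤ X * u * (1 - q - 2 * u) :=
      mul_le_mul_of_nonneg_right hXu (by linarith)
    rw [h1]
    have h3 : u * L ≤ 2 := by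
      have : u ≤ 1 := by
        rw [hu', div_le_one hL1]
        linarith
      nlinarith
    have h4 : b * (u * L) ≤ b * 2 := mul_le_mul_of_nonneg_left h3 hb.le
    have h5 : 0 ≤ a := by rw [haq]; positivity
    have h6 : a * (1 - q - 2 * u) ≤ a * 1 := mul_le_mul_of_nonneg_left (by linarith) h5
    nlinarith
  calc (1 / Real.sqrt q) ^ m * Real.exp (-(X * u * (1 - q)) + 2 * X * u ^ 2)
      ≤ Real.exp (-(b * L * (q * Real.log q))) *
        Real.exp (-(b * L * (1 - q)) + (4 * b + a)) :=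
        mul_le_mul hpow hexp (Real.exp_pos _).le (Real.exp_pos _).le
    _ = Real.exp (-(b * L * (1 - q + q * Real.log q)) + (4 * b + a)) := by
        rw [← Real.exp_add]
        congr 1
        ring

theorem psi (hann : S_ANN) : S_PSI := by
  intro a b ha hab
  have hb : 0 < b := by linarith
  obtain ⟨q, hqdef⟩ : ∃ q, q = a / (2 * b) := ⟨_, rfl⟩
  have hq : 0 < q := by rw [hqdef]; positivity
  have hq1 : q < 1 := by rw [hqdef, div_lt_one (by positivity)]; exact hab
  have haq : a = 2 * b * q := by rw [hqdef]; field_simp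
  have hg := entropy_pos hq hq1
  set g : ℝ := 1 - q + q * Real.log q with hgdef
  have hsq : Real.sqrt q < 1 := by
    rw [Real.sqrt_lt' one_pos]
    simpa using hq1
  obtain ⟨C, hC⟩ : ∃ C, C = Real.log (2 / (1 - Real.sqrt q)) + (4 * b + a) := ⟨_, rfl⟩
  refine ⟨b * g / 2, by positivity, ?_⟩
  filter_upwards [eventually_ge_atTop (6 : ℝ), eventually_ge_atTop (1 + 2 / (1 - q)),
    eventually_ge_atTop (a / b), eventually_ge_atTop (2 * C / (b * g))] with L hL6 hLq hLab hLC
  intro ℓ m hm hℓ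
  have hL0 : 0 < L := by linarith
  have hLa : a ≤ b * L := by
    rw [div_le_iff₀ hb] at hLab
    linarith
  have hmℓ : m ≤ ℓ := by
    have h1 : a * L ≤ b * L ^ 2 := by nlinarith
    exact_mod_cast (hm.trans h1).trans hℓ
  have hLq' : 2 / (L - 1) ≤ 1 - q := by
    have h1 : 0 < 1 - q := by linarith
    have h2 : 2 / (1 - q) ≤ L - 1 := by linarith
    rw [div_le_iff₀ h1] at h2
    rw [div_le_iff₀ (by linarith)]
    linarith
  have hB := B0_bound hb hq hq1 haq (by linarith) hLq' hLa hm hℓ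
  have hB2 : 2 * B0 ℓ m (1 / L) q ≤ Real.exp (-(b * g / 2 * L)) := by
    have h1 : 2 * B0 ℓ m (1 / L) q ≤
        Real.exp (-(b * L * g) + (4 * b + a)) * (2 / (1 - Real.sqrt q)) := by
      calc 2 * B0 ℓ m (1 / L) q ≤ 2 * (Real.exp (-(b * L * g) + (4 * b + a)) /
            (1 - Real.sqrt q)) := by
            exact mul_le_mul_of_nonneg_left hB (by norm_num)
        _ = _ := by ring
    have h2 : 0 < 2 / (1 - Real.sqrt q) := div_pos two_pos (by linarith)
    have h3 : Real.exp (-(b * L * g) + (4 * b + a)) * (2 / (1 - Real.sqrt q)) =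
        Real.exp (-(b * L * g) + C) := by
      have h4 : -(b * L * g) + C = (-(b * L * g) + (4 * b + a)) +
          Real.log (2 / (1 - Real.sqrt q)) := by
        rw [hC]
        ring
      rw [h4, Real.exp_add _ (Real.log _), Real.exp_log h2]
    rw [h3] at h1
    refine h1.trans ?_
    rw [Real.exp_le_exp]
    rw [div_le_iff₀ (by positivity)] at hLC
    nlinarith
  have hBhalf : B0 ℓ m (1 / L) q ≤ 1 / 2 := by
    have h1 : Real.exp (-(b * g / 2 * L)) ≤ 1 := by
      rw [Real.exp_le_one_iff, neg_nonpos]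
      positivity
    linarith
  have hp6 : 1 / L ≤ 1 / 6 := one_div_le_one_div_of_le (by norm_num) hL6
  obtain ⟨H, hH1, hH2⟩ := hann ℓ m (1 / L) q hmℓ (by positivity) hp6 hq hq1
  have hH0 : |H 0| ≤ 1 / 2 := (hH1 0).trans hBhalf
  have hden : 1 / 2 ≤ 1 - H 0 := by
    have := (abs_le.1 hH0).2
    linarith
  have hden0 : 0 < 1 - H 0 := by linarith
  refine ⟨fun x => ((if x = 0 then 1 else 0) - H x) / (1 - H 0), ?_, ?_, ?_⟩
  · simp only [if_pos]
    exact div_self hden0.ne'
  · intro x hx _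
    have hx0 : x ≠ 0 := by omega
    simp only [if_neg hx0, zero_sub, abs_div, abs_neg, abs_of_pos hden0]
    refine le_trans ?_ hB2
    rw [div_le_iff₀ hden0]
    have h1 := hH1 x
    have h2 : 0 ≤ B0 ℓ m (1 / L) q := (abs_nonneg _).trans h1
    nlinarith
  · intro j hj
    have h1 : ∀ x ∈ range (ℓ - j + 1), ((ℓ - j).choose x : ℝ) *
        ((1 / L) ^ (j + x) * (1 - 1 / L) ^ (ℓ - (j + x)) *
          (((if j + x = 0 then 1 else 0) - H (j + x)) / (1 - H 0))) =
        (((ℓ - j).choose x : ℝ) * ((1 / L) ^ (j + x) * (1 - 1 / L) ^ (ℓ - (j + x)) *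
          (if j + x = 0 then 1 else 0)) - ((ℓ - j).choose x : ℝ) *
          ((1 / L) ^ (j + x) * (1 - 1 / L) ^ (ℓ - (j + x)) * H (j + x))) / (1 - H 0) := by
      intro x _
      ring
    simp only
    rw [sum_congr rfl h1, ← sum_div, sum_sub_distrib, hH2 j hj]
    have h2 : ∑ x ∈ range (ℓ - j + 1), ((ℓ - j).choose x : ℝ) *
        ((1 / L) ^ (j + x) * (1 - 1 / L) ^ (ℓ - (j + x)) * (if j + x = 0 then 1 else 0)) =
        if j = 0 then (1 - 1 / L) ^ ℓ else 0 := by
      by_cases hj0 : j = 0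
      · subst hj0
        rw [if_pos rfl, sum_eq_single 0]
        · simp
        · intro x _ hx
          rw [if_neg (by omega), mul_zero, mul_zero]
        · intro h
          exact absurd (mem_range.2 (by omega)) h
      · rw [if_neg hj0]
        refine sum_eq_zero fun x _ => ?_
        rw [if_neg (by omega), mul_zero, mul_zero]
    rw [h2, sub_self, zero_div]

end Pool.Agent.H58.OI
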