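import Pool.Agent.H50.OI.Stm

/-! # Project OI: enlarging the probabilities and the set -/

set_option autoImplicit false

namespace Pool.Agent.H58.OI

open Finset MeasureTheory Filter Topology Q198.CI Pool.Agent.H50.OI

/-- the product weight -/
noncomputable def pw (I' : Finset ℕ) (s : ℕ → ℝ) (B : Finset ℕ) : ℝ :=
  (∏ n ∈ B, s n) * ∏ n ∈ I' \ B, (1 - s n)

lemma pw_nonneg {I' : Finset ℕ} {s : ℕ → ℝ} (hs : ∀ n ∈ I', 0 ≤ s n ∧ s n ≤ 1) {B : Finset ℕ}
    (hB : B ⊆ I') : 0 ≤ pw I' s B := by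
  refine mul_nonneg (prod_nonneg fun n hn => (hs n (hB hn)).1) (prod_nonneg fun n hn => ?_)
  have := (hs n (mem_sdiff.1 hn).1).2
  linarith

/-- the enlarged law -/
noncomputable def wt (I I' : Finset ℕ) (s : ℕ → ℝ) (w : Finset ℕ → ℝ) (A : Finset ℕ) : ℝ :=
  ∑ A0 ∈ I.powerset, ∑ B ∈ I'.powerset, if A0 ∪ B = A then w A0 * pw I' s B else 0

lemma sum_wt {I I' : Finset ℕ} (hI : I ⊆ I') (s : ℕ → ℝ) (w : Finset ℕ → ℝ)
    (F : Finset ℕ → ℝ) : ∑ A ∈ I'.powerset, F A * wt I I' s w A =
      ∑ A0 ∈ I.powerset, ∑ B ∈ I'.powerset, F (A0 ∪ B) * (w A0 * pw I' s B) := by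
  unfold wt
  simp only [mul_sum]
  rw [sum_comm]
  refine sum_congr rfl fun A0 hA0 => ?_
  rw [sum_comm]
  refine sum_congr rfl fun B hB => ?_
  rw [sum_eq_single (A0 ∪ B)]
  · rw [if_pos rfl]
  · intro A _ hne
    rw [if_neg (Ne.symm hne), mul_zero]
  · intro h
    exact absurd (mem_powerset.2 (union_subset ((mem_powerset.1 hA0).trans hI)
      (mem_powerset.1 hB))) h

theorem thk : S_THK := by
  classical
  intro I I' K p p' w hI hw hp hp'
  set s : ℕ → ℝ := fun n => if n ∈ I then (p' n - p n) / (1 - p n) else p' n with hs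
  have hs01 : ∀ n ∈ I', 0 ≤ s n ∧ s n ≤ 1 := by
    intro n hn
    simp only [hs]
    split_ifs with h
    · obtain ⟨h1, h2⟩ := hp n h
      have h3 := (hp' n hn).2
      constructor
      · exact div_nonneg (by linarith) (by linarith)
      · rw [div_le_one (by linarith)]
        linarith
    · exact hp' n hn
  have hrow : ∀ T ⊆ I', ∀ A0 : Finset ℕ, ∑ B ∈ I'.powerset,
      (if T ⊆ A0 ∪ B then (1 : ℝ) else 0) * (w A0 * pw I' s B) =
      w A0 * ∏ n ∈ T \ A0, s n := by
    intro T hT A0
    have h1 : ∀ B ∈ I'.powerset, (if T ⊆ A0 ∪ B then (1 : ℝ) else 0) * (w A0 * pw I' s B) =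
        w A0 * (if T \ A0 ⊆ B then pw I' s B else 0) := by
      intro B _
      have h2 : T ⊆ A0 ∪ B ↔ T \ A0 ⊆ B := by
        constructor
        · intro h x hx
          obtain ⟨hx1, hx2⟩ := mem_sdiff.1 hx
          exact (mem_union.1 (h hx1)).resolve_left hx2
        · intro h x hx
          by_cases hxA : x ∈ A0
          · exact mem_union_left _ hxA
          · exact mem_union_right _ (h (mem_sdiff.2 ⟨hx, hxA⟩))
      by_cases h3 : T \ A0 ⊆ B
      · rw [if_pos (h2.2 h3), if_pos h3, one_mul]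
      · rw [if_neg (fun h => h3 (h2.1 h)), if_neg h3, zero_mul, mul_zero]
    rw [sum_congr rfl h1, ← mul_sum, ← sum_filter]
    have e : I'.powerset.filter (fun S => T \ A0 ⊆ S) = Icc (T \ A0) I' := by
      ext S
      simp only [mem_Icc, mem_filter, mem_powerset]
      exact and_comm
    rw [e]
    congr 1
    exact prod_moment (sdiff_subset.trans hT) s
  refine ⟨wt I I' s w, ⟨?_, ?_⟩, ?_⟩
  · intro A _
    refine sum_nonneg fun A0 hA0 => sum_nonneg fun B hB => ?_
    split_ifs
    · exact mul_nonneg (hw.1 A0 (mem_powerset.1 hA0)) (pw_nonneg hs01 (mem_powerset.1 hB))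
    · exact le_rfl
  · intro T hT hTK
    have e : I'.powerset.filter (fun S => T ⊆ S) = Icc T I' := by
      ext S
      simp only [mem_Icc, mem_filter, mem_powerset]
      exact and_comm
    rw [← e, sum_filter]
    have h1 : ∀ A ∈ I'.powerset, (if T ⊆ A then wt I I' s w A else 0) =
        (if T ⊆ A then (1 : ℝ) else 0) * wt I I' s w A := by
      intro A _
      split_ifs <;> simp
    rw [sum_congr rfl h1, sum_wt hI s w (fun A => if T ⊆ A then (1 : ℝ) else 0)]
    rw [sum_congr rfl fun A0 _ => hrow T hT A0]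
    have h2 : ∀ A0 ∈ I.powerset, w A0 * ∏ n ∈ T \ A0, s n =
        (w A0 * ∏ n ∈ T ∩ I, (if n ∈ A0 then 1 else s n)) * ∏ n ∈ T \ I, s n := by
      intro A0 hA0
      have hA0I := mem_powerset.1 hA0
      have h3 : ∏ n ∈ T \ A0, s n = ∏ n ∈ T, (if n ∈ A0 then 1 else s n) := by
        rw [← prod_inter_mul_prod_sdiff T A0 (fun n => if n ∈ A0 then 1 else s n)]
        have e1 : ∏ n ∈ T ∩ A0, (if n ∈ A0 then 1 else s n) = 1 :=
          prod_eq_one fun n hn => if_pos (mem_inter.1 hn).2
        rw [e1, one_mul]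
        exact prod_congr rfl fun n hn => (if_neg (mem_sdiff.1 hn).2).symm
      have h4 : ∏ n ∈ T, (if n ∈ A0 then 1 else s n) =
          (∏ n ∈ T ∩ I, (if n ∈ A0 then 1 else s n)) *
          ∏ n ∈ T \ I, (if n ∈ A0 then 1 else s n) := (prod_inter_mul_prod_sdiff T I _).symm
      have h5 : ∏ n ∈ T \ I, (if n ∈ A0 then 1 else s n) = ∏ n ∈ T \ I, s n := by
        refine prod_congr rfl fun n hn => ?_
        rw [if_neg]
        intro h
        exact (mem_sdiff.1 hn).2 (hA0I h)
      rw [h3, h4, h5]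
      ring
    rw [sum_congr rfl h2, ← sum_mul, Q167.LI.law_moment hw inter_subset_right
      ((card_le_card inter_subset_left).trans hTK) s (fun _ => 1)]
    rw [← prod_inter_mul_prod_sdiff T I p']
    congr 1
    · refine prod_congr rfl fun n hn => ?_
      obtain ⟨_, hnI⟩ := mem_inter.1 hn
      have h3 : 1 - p n ≠ 0 := by
        have := (hp n hnI).1
        linarith
      simp only [hs, if_pos hnI]
      field_simp
      ring
    · refine prod_congr rfl fun n hn => ?_
      obtain ⟨_, hnI⟩ := mem_sdiff.1 hn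
      simp only [hs, if_neg hnI]
  · intro G hG
    unfold mass
    have h1 : ∀ A ∈ I'.powerset, (if G A then wt I I' s w A else 0) =
        (if G A then (1 : ℝ) else 0) * wt I I' s w A := by
      intro A _
      split_ifs <;> simp
    have h2 : ∑ A ∈ I'.powerset, (if G A then wt I I' s w A else 0) =
        ∑ A0 ∈ I.powerset, ∑ B ∈ I'.powerset,
          (if G (A0 ∪ B) then (1 : ℝ) else 0) * (w A0 * pw I' s B) := by
      rw [sum_congr rfl h1, sum_wt hI s w (fun A => if G A then (1 : ℝ) else 0)]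
    refine le_trans ?_ (le_of_eq (Eq.trans h2.symm ?_))
    · refine sum_le_sum fun A0 hA0 => ?_
      have h3 := hrow ∅ (empty_subset _) A0
      rw [empty_sdiff, prod_empty, mul_one] at h3
      have hw0 : 0 ≤ w A0 := hw.1 A0 (mem_powerset.1 hA0)
      by_cases hGA : G A0
      · rw [if_pos hGA]
        refine h3.symm.le.trans ?_
        refine sum_le_sum fun B _ => ?_
        rw [if_pos (empty_subset _), if_pos (hG _ _ subset_union_left hGA)]
      · rw [if_neg hGA]
        refine sum_nonneg fun B hB => mul_nonneg ?_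
          (mul_nonneg hw0 (pw_nonneg hs01 (mem_powerset.1 hB)))
        split_ifs <;> simp
    · refine sum_congr rfl fun A _ => ?_
      congr

end Pool.Agent.H58.OI
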